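import Mathlib

/-! Binomial probabilities are small. -/

set_option autoImplicit false

namespace Run7.h726.RS

open Finset

theorem cb_bound (m : ℕ) : ((m.centralBinom : ℝ)) ^ 2 * (2 * m + 1) ≤ ((4 : ℝ) ^ m) ^ 2 := by
  induction m with
  | zero => simp
  | succ m ih =>
    have h : ((m : ℝ) + 1) * ((m + 1).centralBinom : ℝ) = 2 * (2 * m + 1) * (m.centralBinom : ℝ) := by
      exact_mod_cast Nat.succ_mul_centralBinom_succ m
    set c := (m.centralBinom : ℝ) with hc
    set c' := ((m + 1).centralBinom : ℝ) with hc'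
    have hm : (0 : ℝ) ≤ m := Nat.cast_nonneg m
    have h1 : ((m : ℝ) + 1) ^ 2 * (c' ^ 2 * (2 * (m + 1) + 1)) =
        4 * (2 * m + 1) ^ 2 * (2 * m + 3) * c ^ 2 := by
      calc ((m : ℝ) + 1) ^ 2 * (c' ^ 2 * (2 * (m + 1) + 1)) =
          (((m : ℝ) + 1) * c') ^ 2 * (2 * m + 3) := by ring
        _ = _ := by rw [h]; ring
    have h2 : 4 * (2 * (m : ℝ) + 1) ^ 2 * (2 * m + 3) * c ^ 2 ≤
        16 * (m + 1) ^ 2 * (c ^ 2 * (2 * m + 1)) := by
      have h3 : (2 * (m : ℝ) + 1) * (2 * m + 3) ≤ 4 * (m + 1) ^ 2 := by nlinarith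
      have h4 : 0 ≤ 4 * (2 * (m : ℝ) + 1) * c ^ 2 := by positivity
      nlinarith [mul_le_mul_of_nonneg_left h3 h4]
    have h5 : ((m : ℝ) + 1) ^ 2 * (c' ^ 2 * (2 * (m + 1) + 1)) ≤
        ((m : ℝ) + 1) ^ 2 * ((4 : ℝ) ^ (m + 1)) ^ 2 := by
      rw [h1]
      refine h2.trans ?_
      calc 16 * ((m : ℝ) + 1) ^ 2 * (c ^ 2 * (2 * m + 1)) ≤
          16 * ((m : ℝ) + 1) ^ 2 * ((4 : ℝ) ^ m) ^ 2 :=
            mul_le_mul_of_nonneg_left ih (by positivity)
        _ = _ := by rw [pow_succ]; ring
    have h6 := le_of_mul_le_mul_left h5 (by positivity)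
    push_cast
    exact h6

theorem mid_sq (j : ℕ) : ((j.choose (j / 2) : ℝ)) ^ 2 * (j + 1) ≤ ((2 : ℝ) ^ j) ^ 2 := by
  rcases Nat.even_or_odd' j with ⟨m, rfl | rfl⟩
  · have h := cb_bound m
    rw [Nat.centralBinom_eq_two_mul_choose] at h
    have e : 2 * m / 2 = m := by omega
    rw [e]
    have e2 : ((2 : ℝ) ^ (2 * m)) = 4 ^ m := by rw [pow_mul]; norm_num
    rw [e2]
    push_cast
    exact h
  · have h := cb_bound (m + 1)
    have e : (2 * m + 1) / 2 = m := by omega
    have e1 : (m + 1).centralBinom = 2 * (2 * m + 1).choose m := by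
      rw [Nat.centralBinom_eq_two_mul_choose]
      have : 2 * (m + 1) = 2 * m + 1 + 1 := by ring
      rw [this, Nat.choose_succ_succ, Nat.choose_symm_half]
      ring
    rw [e1] at h
    rw [e]
    have e2 : ((2 : ℝ) ^ (2 * m + 1)) ^ 2 * 4 = ((4 : ℝ) ^ (m + 1)) ^ 2 := by
      have e3 : (4 : ℝ) ^ (m + 1) = 2 ^ (2 * m + 1) * 2 := by
        rw [show (4 : ℝ) = 2 ^ 2 by norm_num, ← pow_mul, ← pow_succ]
        congr 1
      rw [e3]; ring
    push_cast at h ⊢
    have h0 : (0 : ℝ) ≤ (((2 * m + 1).choose m : ℕ) : ℝ) ^ 2 := by positivity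
    nlinarith

theorem bin_half (j k : ℕ) : (j.choose k : ℝ) / 2 ^ j ≤ 1 / √((j : ℝ) + 1) := by
  have h1 : (j.choose k : ℝ) ≤ j.choose (j / 2) := by exact_mod_cast Nat.choose_le_middle k j
  have h2 := mid_sq j
  have hj : (0 : ℝ) < (j : ℝ) + 1 := by positivity
  rw [div_le_div_iff₀ (by positivity) (Real.sqrt_pos.mpr hj), one_mul]
  refine (mul_le_mul_of_nonneg_right h1 (Real.sqrt_nonneg _)).trans ?_
  rw [← pow_le_pow_iff_left₀ (by positivity) (by positivity) (two_ne_zero), mul_pow,
    Real.sq_sqrt hj.le]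
  exact h2

/-- the bound for the probability `1 - q / 2` -/
theorem bin_p {q : ℝ} (hq0 : 0 < q) (hq1 : q ≤ 1) {j k : ℕ} (hk : k ≤ j) :
    (j.choose k : ℝ) * (1 - q / 2) ^ k * (q / 2) ^ (j - k) ≤ 1 / √(q * ((j : ℝ) + 1)) := by
  have h1q : 0 ≤ 1 - q := by linarith
  set w : ℕ → ℝ := fun m => (j.choose m : ℝ) * (1 - q) ^ m * q ^ (j - m) with hw
  have hw0 : ∀ m, 0 ≤ w m := fun m => by rw [hw]; positivity
  set a : ℕ → ℝ := fun m => 1 / √(((j - m : ℕ) : ℝ) + 1) with ha
  -- two stages
  have s1 : (j.choose k : ℝ) * (1 - q / 2) ^ k * (q / 2) ^ (j - k) ≤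
      ∑ m ∈ range (j + 1), w m * a m := by
    have e1 : (1 - q / 2) ^ k = ∑ m ∈ range (k + 1), (1 - q) ^ m * (q / 2) ^ (k - m) *
        (k.choose m : ℝ) := by
      rw [← add_pow]
      congr 1
      ring
    rw [e1, mul_sum, sum_mul]
    refine (sum_le_sum (g := fun m => w m * a m) ?_).trans
      (sum_le_sum_of_subset_of_nonneg (range_subset_range.mpr (by omega)) ?_)
    · intro m hm
      rw [mem_range] at hm
      have hmk : m ≤ k := by omega
      have e2 : (j.choose k : ℝ) * (k.choose m : ℝ) =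
          (j.choose m : ℝ) * ((j - m).choose (k - m) : ℝ) := by
        exact_mod_cast Nat.choose_mul hmk
      have e3 : (q / 2) ^ (k - m) * (q / 2) ^ (j - k) = q ^ (j - m) / 2 ^ (j - m) := by
        rw [← pow_add, ← div_pow]
        congr 1
        omega
      calc (j.choose k : ℝ) * ((1 - q) ^ m * (q / 2) ^ (k - m) * (k.choose m : ℝ)) *
            (q / 2) ^ (j - k) =
            ((j.choose k : ℝ) * (k.choose m : ℝ)) * (1 - q) ^ m *
              ((q / 2) ^ (k - m) * (q / 2) ^ (j - k)) := by ring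
        _ = w m * (((j - m).choose (k - m) : ℝ) / 2 ^ (j - m)) := by
            rw [e2, e3, hw]; ring
        _ ≤ w m * a m := mul_le_mul_of_nonneg_left (bin_half _ _) (hw0 m)
    · intro m _ _
      exact mul_nonneg (hw0 m) (by rw [ha]; positivity)
  refine s1.trans ?_
  have hsum : ∑ m ∈ range (j + 1), w m = 1 := by
    have h := add_pow (1 - q) q j
    rw [sub_add_cancel, one_pow] at h
    rw [h]
    apply sum_congr rfl
    intro m _
    rw [hw]; ring
  have hsq : ∑ m ∈ range (j + 1), w m * a m ^ 2 ≤ 1 / (q * ((j : ℝ) + 1)) := by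
    have h := add_pow (1 - q) q (j + 1)
    rw [sub_add_cancel, one_pow, sum_range_succ] at h
    have hlast : 0 ≤ (1 - q) ^ (j + 1) * q ^ (j + 1 - (j + 1)) * ((j + 1).choose (j + 1) : ℝ) := by
      positivity
    rw [le_div_iff₀ (by positivity), sum_mul]
    refine le_trans (le_of_eq ?_) (show ∑ m ∈ range (j + 1),
      (1 - q) ^ m * q ^ (j + 1 - m) * ((j + 1).choose m : ℝ) ≤ 1 by linarith)
    apply sum_congr rfl
    intro m hm
    rw [mem_range] at hm
    have e1 : ((j + 1).choose m : ℝ) * (((j - m : ℕ) : ℝ) + 1) = (j.choose m : ℝ) * ((j : ℝ) + 1) := by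
      have h1 := Nat.choose_mul_succ_eq j m
      have h2 : j + 1 - m = (j - m) + 1 := by omega
      rw [h2] at h1
      have h3 : (j.choose m : ℝ) * ((j : ℝ) + 1) = ((j + 1).choose m : ℝ) * (((j - m : ℕ) : ℝ) + 1) := by
        exact_mod_cast h1
      exact h3.symm
    have e2 : j + 1 - m = (j - m) + 1 := by omega
    have e3 : a m ^ 2 = 1 / (((j - m : ℕ) : ℝ) + 1) := by
      rw [ha]
      simp only
      rw [div_pow, one_pow, Real.sq_sqrt (by positivity)]
    have hp : (0 : ℝ) < ((j - m : ℕ) : ℝ) + 1 := by positivity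
    rw [e3, e2, pow_succ, hw]
    simp only
    field_simp
    linear_combination (-(1 - q) ^ m) * e1
  have hcs : (∑ m ∈ range (j + 1), w m * a m) ^ 2 ≤
      (∑ m ∈ range (j + 1), w m) * ∑ m ∈ range (j + 1), w m * a m ^ 2 := by
    apply sum_sq_le_sum_mul_sum_of_sq_le_mul
    · intro m _; exact hw0 m
    · intro m _; exact mul_nonneg (hw0 m) (by positivity)
    · intro m _; exact le_of_eq (by ring)
  rw [hsum, one_mul] at hcs
  have hpos : 0 < q * ((j : ℝ) + 1) := by positivity
  rw [← pow_le_pow_iff_left₀ (sum_nonneg (fun m _ => mul_nonneg (hw0 m) (by rw [ha]; positivity)))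
    (by positivity) two_ne_zero, div_pow, one_pow, Real.sq_sqrt hpos.le]
  exact hcs.trans hsq

/-- the weight of a set of kept indices: every index is deleted with probability `p` -/
noncomputable def wt {n : ℕ} (p : ℝ) (T : Finset (Fin n)) : ℝ := (1 - p) ^ T.card * p ^ (n - T.card)

theorem wt_nonneg {n : ℕ} {p : ℝ} (h0 : 0 ≤ p) (h1 : p ≤ 1) (T : Finset (Fin n)) : 0 ≤ wt p T := by
  unfold wt
  have : 0 ≤ 1 - p := by linarith
  positivity

open Classical in
/-- the probability that exactly `k` indices of `S` are kept -/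
theorem prob_card {n : ℕ} {p : ℝ} (S : Finset (Fin n)) (k : ℕ) :
    ∑ T : Finset (Fin n), (if (T ∩ S).card = k then wt p T else 0) =
      (S.card.choose k : ℝ) * (1 - p) ^ k * p ^ (S.card - k) := by
  have h1 : ∑ T : Finset (Fin n), (if (T ∩ S).card = k then wt p T else 0) =
      ∑ z ∈ (powersetCard k S) ×ˢ (powerset Sᶜ), ((1 - p) ^ k * p ^ (S.card - k)) *
        ((1 - p) ^ z.2.card * p ^ (Sᶜ.card - z.2.card)) := by
    rw [← sum_filter]
    refine sum_bij' (fun T _ => (T ∩ S, T ∩ Sᶜ)) (fun z _ => z.1 ∪ z.2) ?_ ?_ ?_ ?_ ?_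
    · intro T hT
      rw [mem_filter] at hT
      rw [mem_product, mem_powersetCard, mem_powerset]
      exact ⟨⟨inter_subset_right, hT.2⟩, inter_subset_right⟩
    · rintro ⟨A, B⟩ hz
      rw [mem_product, mem_powersetCard, mem_powerset] at hz
      obtain ⟨⟨hA, hk⟩, hB⟩ := hz
      simp only at hA hk hB
      rw [mem_filter]
      refine ⟨mem_univ _, ?_⟩
      have : (A ∪ B) ∩ S = A := by
        ext x
        simp only [mem_inter, mem_union]
        constructor
        · rintro ⟨h | h, hx⟩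
          · exact h
          · exact absurd hx (mem_compl.mp (hB h))
        · exact fun h => ⟨Or.inl h, hA h⟩
      simp only [this]
      exact hk
    · intro T _
      simp only
      ext x
      simp only [mem_inter, mem_union, mem_compl]
      tauto
    · rintro ⟨A, B⟩ hz
      rw [mem_product, mem_powersetCard, mem_powerset] at hz
      obtain ⟨⟨hA, hk⟩, hB⟩ := hz
      simp only at hA hk hB
      rw [Prod.mk.injEq]
      constructor
      · ext x
        simp only [mem_inter, mem_union]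
        constructor
        · rintro ⟨h | h, hx⟩
          · exact h
          · exact absurd hx (mem_compl.mp (hB h))
        · exact fun h => ⟨Or.inl h, hA h⟩
      · ext x
        simp only [mem_inter, mem_union, mem_compl]
        constructor
        · rintro ⟨h | h, hx⟩
          · exact absurd (hA h) hx
          · exact h
        · exact fun h => ⟨Or.inr h, mem_compl.mp (hB h)⟩
    · intro T hT
      rw [mem_filter] at hT
      unfold wt
      have hc : T.card = (T ∩ S).card + (T ∩ Sᶜ).card := by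
        rw [← card_union_of_disjoint]
        · congr 1
          ext x
          simp only [mem_inter, mem_union, mem_compl]
          tauto
        · rw [disjoint_left]
          intro x h1 h2
          rw [mem_inter] at h1 h2
          exact (mem_compl.mp h2.2) h1.2
      have hn : n = S.card + Sᶜ.card := by
        have := card_add_card_compl S
        rw [Fintype.card_fin] at this
        exact this.symm
      have h3 : (T ∩ S).card ≤ S.card := card_le_card inter_subset_right
      have h4 : (T ∩ Sᶜ).card ≤ Sᶜ.card := card_le_card inter_subset_right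
      rw [hT.2] at hc h3
      have h5 : n - T.card = (S.card - k) + (Sᶜ.card - (T ∩ Sᶜ).card) := by omega
      rw [h5, hc, pow_add, pow_add]
      ring
  rw [h1, sum_product]
  have h2 : ∑ B ∈ powerset Sᶜ, (1 - p) ^ B.card * p ^ (Sᶜ.card - B.card) = 1 := by
    rw [sum_pow_mul_eq_add_pow]
    simp
  simp only [← mul_sum, h2, mul_one]
  rw [sum_const, card_powersetCard, nsmul_eq_mul]
  ring

open Classical in
theorem prob_le {n : ℕ} {p : ℝ} (h0 : 0 < p) (h1 : p ≤ 1 / 2) (S : Finset (Fin n)) (k : ℕ) :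
    ∑ T : Finset (Fin n), (if (T ∩ S).card = k then wt p T else 0) ≤
      1 / √(2 * p * ((k : ℝ) + 1)) := by
  rw [prob_card]
  rcases Nat.lt_or_ge S.card k with h | h
  · rw [Nat.choose_eq_zero_of_lt h]
    simp only [Nat.cast_zero, zero_mul]
    positivity
  · have h2 := bin_p (q := 2 * p) (by linarith) (by linarith) h
    rw [show 2 * p / 2 = p by ring] at h2
    refine h2.trans ?_
    apply one_div_le_one_div_of_le (by positivity)
    apply Real.sqrt_le_sqrt
    have : (k : ℝ) ≤ S.card := by exact_mod_cast h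
    gcongr

open Classical in
theorem wt_sum {n : ℕ} (p : ℝ) : ∑ T : Finset (Fin n), wt p T = 1 := by
  have h := sum_pow_mul_eq_add_pow (1 - p) p (univ : Finset (Fin n))
  rw [powerset_univ] at h
  unfold wt
  rw [card_univ, Fintype.card_fin] at h
  rw [h]
  simp

end Run7.h726.RS
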