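import Pool.Agent.KLev.Arcs

/-! Local structure of an arrangement of arcs. -/

set_option autoImplicit false

namespace Run7.h726.RS

open Finset Filter Topology KLev.Arcs

variable {n s : ℕ} {Γ : Fin n → Arc}

/-- the arc is defined at `x` -/
def Dom (A : Arc) (x : ℝ) : Prop := x ∈ Set.Icc A.lo A.hi

/-- the arc `j` is defined at `x` and strictly below the arc `i` -/
def Bel (Γ : Fin n → Arc) (i j : Fin n) (x : ℝ) : Prop :=
  x ∈ Set.Icc (Γ j).lo (Γ j).hi ∧ (Γ j).f x < (Γ i).f x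

/-- a filter on which membership of intervals is decided, and on which connectedness is available:
left or right neighbourhoods -/
theorem dom_left (A : Arc) (x : ℝ) :
    (∀ᶠ y in 𝓝[<] x, y ∈ Set.Icc A.lo A.hi) ∨ (∀ᶠ y in 𝓝[<] x, y ∉ Set.Icc A.lo A.hi) := by
  rcases le_or_gt x A.lo with h | h
  · right
    filter_upwards [self_mem_nhdsWithin] with y hy hy2
    have : y < x := hy
    exact absurd hy2.1 (by linarith)
  · rcases le_or_gt x A.hi with h2 | h2
    · left
      filter_upwards [self_mem_nhdsWithin, Filter.Eventually.filter_mono nhdsWithin_le_nhds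
        (eventually_gt_nhds h)] with y hy hy2
      have : y < x := hy
      exact ⟨hy2.le, by linarith⟩
    · right
      filter_upwards [Filter.Eventually.filter_mono nhdsWithin_le_nhds
        (eventually_gt_nhds h2)] with y hy hy2
      exact absurd hy2.2 (by linarith)

/-- reflected arc -/
noncomputable def Arc.refl (A : Arc) : Arc where
  lo := -A.hi
  hi := -A.lo
  lo_lt_hi := by linarith [A.lo_lt_hi]
  f := fun x => A.f (-x)
  cont := by
    apply A.cont.comp continuous_neg.continuousOn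
    intro x hx
    exact ⟨by linarith [hx.2], by linarith [hx.1]⟩

/-- common points of two different arcs: finitely many abscissae -/
theorem common_finite (hΓ : IsFamily s Γ) {i j : Fin n} (hij : i ≠ j) :
    {x : ℝ | x ∈ Set.Icc (Γ i).lo (Γ i).hi ∧ x ∈ Set.Icc (Γ j).lo (Γ j).hi ∧
      (Γ i).f x = (Γ j).f x}.Finite := by
  have h : ((Γ i).points ∩ (Γ j).points).Finite :=
    Set.finite_of_encard_le_coe (hΓ i j hij)
  refine (h.image (fun p => p.1)).subset ?_
  rintro x ⟨h1, h2, h3⟩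
  exact ⟨(x, (Γ i).f x), ⟨⟨h1, rfl⟩, ⟨h2, h3⟩⟩, rfl⟩

/-- to the left of every point the order of two arcs is constant -/
theorem ev_left (hΓ : IsFamily s Γ) (i j : Fin n) (x : ℝ)
    (hi : ∀ᶠ y in 𝓝[<] x, y ∈ Set.Icc (Γ i).lo (Γ i).hi) :
    (∀ᶠ y in 𝓝[<] x, Bel Γ i j y) ∨ (∀ᶠ y in 𝓝[<] x, ¬ Bel Γ i j y) := by
  by_cases hij : i = j
  · subst hij
    right
    exact Eventually.of_forall (fun y h => lt_irrefl _ h.2)
  rcases dom_left (Γ j) x with hj | hj
  swap
  · right
    filter_upwards [hj] with y hy h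
    exact hy h.1
  have hfin := common_finite hΓ hij
  have hne : ∀ᶠ y in 𝓝[<] x, y ∉ {x : ℝ | x ∈ Set.Icc (Γ i).lo (Γ i).hi ∧
      x ∈ Set.Icc (Γ j).lo (Γ j).hi ∧ (Γ i).f x = (Γ j).f x} \ {x} := by
    refine Filter.Eventually.filter_mono nhdsWithin_le_nhds ?_
    have hf2 := hfin.subset (Set.sdiff_subset (t := {x}))
    exact hf2.isClosed.isOpen_compl.mem_nhds (fun h => h.2 rfl)
  obtain ⟨y0, hy0, hall⟩ := (mem_nhdsLT_iff_exists_Ioo_subset.mp
    ((hi.and hj).and (hne.and self_mem_nhdsWithin)))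
  have hy0' : y0 < x := hy0
  have hcont : ContinuousOn (fun y => (Γ i).f y - (Γ j).f y) (Set.Ioo y0 x) := by
    apply ContinuousOn.sub
    · exact (Γ i).cont.mono (fun y hy => (hall hy).1.1)
    · exact (Γ j).cont.mono (fun y hy => (hall hy).1.2)
  have hnz : ∀ y ∈ Set.Ioo y0 x, (Γ i).f y - (Γ j).f y ≠ 0 := by
    intro y hy h0
    obtain ⟨⟨a1, a2⟩, a3, a4⟩ := hall hy
    apply a3
    exact ⟨⟨a1, a2, by linarith⟩, fun h => by
      have h1 : y = x := h
      have h2 : y < x := a4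
      linarith⟩
  have hmem : Set.Ioo y0 x ∈ 𝓝[<] x := Ioo_mem_nhdsLT hy0'
  obtain ⟨z, hz⟩ : (Set.Ioo y0 x).Nonempty := Set.nonempty_Ioo.mpr hy0'
  have hsign : ∀ y ∈ Set.Ioo y0 x, (0 < (Γ i).f z - (Γ j).f z ↔ 0 < (Γ i).f y - (Γ j).f y) := by
    have key : ∀ u ∈ Set.Ioo y0 x, ∀ v ∈ Set.Ioo y0 x, 0 < (Γ i).f u - (Γ j).f u →
        0 < (Γ i).f v - (Γ j).f v := by
      intro u hu v hv h
      by_contra hcon
      push Not at hcon
      have hpre := (isPreconnected_Ioo (a := y0) (b := x)).image _ hcont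
      have h0 : (0 : ℝ) ∈ (fun y => (Γ i).f y - (Γ j).f y) '' Set.Ioo y0 x :=
        hpre.ordConnected.out ⟨v, hv, rfl⟩ ⟨u, hu, rfl⟩ ⟨hcon, h.le⟩
      obtain ⟨w, hw, hw0⟩ := h0
      exact hnz w hw hw0
    exact fun y hy => ⟨key z hz y hy, key y hy z hz⟩
  by_cases hz0 : 0 < (Γ i).f z - (Γ j).f z
  · left
    filter_upwards [hmem] with y hy
    have h1 := (hsign y hy).mp hz0
    exact ⟨(hall hy).1.2, by linarith⟩
  · right
    filter_upwards [hmem] with y hy h
    apply hz0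
    rw [hsign y hy]
    linarith [h.2]

theorem refl_points (A : Arc) (p : ℝ × ℝ) : p ∈ (Arc.refl A).points ↔ (-p.1, p.2) ∈ A.points := by
  unfold Arc.points Arc.refl
  simp only [Set.mem_ofPred_eq, Set.mem_Icc]
  constructor
  · rintro ⟨⟨h1, h2⟩, h3⟩
    exact ⟨⟨by linarith, by linarith⟩, h3⟩
  · rintro ⟨⟨h1, h2⟩, h3⟩
    exact ⟨⟨by linarith, by linarith⟩, h3⟩

theorem refl_family (hΓ : IsFamily s Γ) : IsFamily s (fun i => Arc.refl (Γ i)) := by
  intro i j hij
  refine le_trans ?_ (hΓ i j hij)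
  apply Set.encard_le_encard_of_injOn (f := fun p : ℝ × ℝ => (-p.1, p.2))
  · rintro p ⟨h1, h2⟩
    exact ⟨(refl_points _ _).mp h1, (refl_points _ _).mp h2⟩
  · rintro p _ q _ h
    simp only [Prod.mk.injEq, neg_inj] at h
    exact Prod.ext h.1 h.2

/-- to the right of every point the order of two arcs is constant -/
theorem ev_right (hΓ : IsFamily s Γ) (i j : Fin n) (x : ℝ)
    (hi : ∀ᶠ y in 𝓝[>] x, y ∈ Set.Icc (Γ i).lo (Γ i).hi) :
    (∀ᶠ y in 𝓝[>] x, Bel Γ i j y) ∨ (∀ᶠ y in 𝓝[>] x, ¬ Bel Γ i j y) := by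
  have hmap : Tendsto (fun y : ℝ => -y) (𝓝[>] x) (𝓝[<] (-x)) := by
    apply tendsto_nhdsWithin_of_tendsto_nhds_of_eventually_within
    · exact (continuous_neg.tendsto x).mono_left nhdsWithin_le_nhds
    · filter_upwards [self_mem_nhdsWithin] with y hy
      have : x < y := hy
      show -y < -x
      linarith
  have hmap2 : Tendsto (fun y : ℝ => -y) (𝓝[<] (-x)) (𝓝[>] x) := by
    apply tendsto_nhdsWithin_of_tendsto_nhds_of_eventually_within
    · have := (continuous_neg.tendsto (-x))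
      rw [neg_neg] at this
      exact this.mono_left nhdsWithin_le_nhds
    · filter_upwards [self_mem_nhdsWithin] with y hy
      have : y < -x := hy
      show x < -y
      linarith
  have hi' : ∀ᶠ y in 𝓝[<] (-x), y ∈ Set.Icc (Arc.refl (Γ i)).lo (Arc.refl (Γ i)).hi := by
    filter_upwards [hmap2.eventually hi] with y hy
    exact ⟨by show -(Γ i).hi ≤ y; linarith [hy.2], by show y ≤ -(Γ i).lo; linarith [hy.1]⟩
  have e : ∀ y, Bel (fun i => Arc.refl (Γ i)) i j (-y) ↔ Bel Γ i j y := by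
    intro y
    unfold Bel Arc.refl
    simp only [neg_neg, Set.mem_Icc]
    constructor
    · rintro ⟨⟨h1, h2⟩, h3⟩
      exact ⟨⟨by linarith, by linarith⟩, h3⟩
    · rintro ⟨⟨h1, h2⟩, h3⟩
      exact ⟨⟨by linarith, by linarith⟩, h3⟩
  rcases ev_left (refl_family hΓ) i j (-x) hi' with h | h
  · left
    filter_upwards [hmap.eventually h] with y hy
    exact (e y).mp hy
  · right
    filter_upwards [hmap.eventually h] with y hy hy2
    exact hy ((e y).mpr hy2)

end Run7.h726.RS
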