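import Pool.Agent.Run7.h726.RS.M1
import Pool.Agent.Run7.h726.RS.M2

/-! Levels of random subfamilies of arcs. -/

set_option autoImplicit false

namespace Run7.h726.RS

open Finset Filter Topology KLev.Arcs

variable {n s : ℕ} {Γ : Fin n → Arc}

/-- the subfamily of the arcs with index in `T` -/
def sub (Γ : Fin n → Arc) (T : Finset (Fin n)) : Fin T.card → Arc :=
  fun i => Γ (T.orderEmbOfFin rfl i)

open Classical in
/-- the arcs below the arc `i` immediately to the left of `x` -/
noncomputable def LS (Γ : Fin n → Arc) (i : Fin n) (x : ℝ) : Finset (Fin n) :=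
  univ.filter (fun j => ∀ᶠ y in 𝓝[<] x, Bel Γ i j y)

open Classical in
/-- the arcs below the arc `i` immediately to the right of `x` -/
noncomputable def RR (Γ : Fin n → Arc) (i : Fin n) (x : ℝ) : Finset (Fin n) :=
  univ.filter (fun j => ∀ᶠ y in 𝓝[>] x, Bel Γ i j y)

open Classical in
/-- the arcs below the arc `i` at `x` -/
noncomputable def CS (Γ : Fin n → Arc) (i : Fin n) (x : ℝ) : Finset (Fin n) :=
  univ.filter (fun j => Bel Γ i j x)

open Classical in
theorem below_sub (T : Finset (Fin n)) (i : Fin n) (y : ℝ) :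
    below (sub Γ T) (y, (Γ i).f y) = (T.filter (fun j => Bel Γ i j y)).card := by
  unfold below
  apply Finset.card_bij (fun a _ => T.orderEmbOfFin rfl a)
  · intro a ha
    rw [mem_filter] at ha ⊢
    exact ⟨T.orderEmbOfFin_mem rfl a, ha.2⟩
  · intro a _ b _ h
    exact (T.orderEmbOfFin rfl).injective h
  · intro j hj
    rw [mem_filter] at hj
    have : j ∈ Set.range (T.orderEmbOfFin rfl) := by
      rw [range_orderEmbOfFin]; exact mem_coe.mpr hj.1
    obtain ⟨a, rfl⟩ := this
    exact ⟨a, by rw [mem_filter]; exact ⟨mem_univ _, hj.2⟩, rfl⟩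

theorem dom_right (A : Arc) (x : ℝ) :
    (∀ᶠ y in 𝓝[>] x, y ∈ Set.Icc A.lo A.hi) ∨ (∀ᶠ y in 𝓝[>] x, y ∉ Set.Icc A.lo A.hi) := by
  rcases le_or_gt A.hi x with h | h
  · right
    filter_upwards [self_mem_nhdsWithin] with y hy hy2
    have : x < y := hy
    exact absurd hy2.2 (by linarith)
  · rcases le_or_gt A.lo x with h2 | h2
    · left
      filter_upwards [self_mem_nhdsWithin, Filter.Eventually.filter_mono nhdsWithin_le_nhds
        (eventually_lt_nhds h)] with y hy hy2
      have : x < y := hy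
      exact ⟨by linarith, hy2.le⟩
    · right
      filter_upwards [Filter.Eventually.filter_mono nhdsWithin_le_nhds
        (eventually_lt_nhds h2)] with y hy hy2
      exact absurd hy2.1 (by linarith)

theorem points_closed (A : Arc) : IsClosed A.points := by
  have h : A.points = (fun x => (x, A.f x)) '' Set.Icc A.lo A.hi := by
    ext ⟨a, b⟩
    unfold Arc.points
    simp only [Set.mem_ofPred_eq, Set.mem_image, Prod.mk.injEq]
    constructor
    · rintro ⟨h1, h2⟩
      exact ⟨a, h1, rfl, h2.symm⟩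
    · rintro ⟨x, h1, rfl, h2⟩
      exact ⟨h1, h2.symm⟩
  rw [h]
  exact (isCompact_Icc.image_of_continuousOn (continuousOn_id.prodMk A.cont)).isClosed

open Classical in
theorem filter_eq (T : Finset (Fin n)) {i : Fin n} {y : ℝ} {S : Finset (Fin n)}
    (h : ∀ j, Bel Γ i j y ↔ j ∈ S) : (T.filter (fun j => Bel Γ i j y)).card = (T ∩ S).card := by
  congr 1
  ext j
  rw [mem_filter, mem_inter, h]

open Classical in
/-- points of the level of a subfamily -/
theorem level_sub (hΓ : IsFamily s Γ) {T : Finset (Fin n)} {k : ℕ} {v : ℝ × ℝ}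
    (hv : v ∈ kLevel (sub Γ T) k) : ∃ i ∈ T, v ∈ (Γ i).points ∧
      ((T ∩ LS Γ i v.1).card = k ∨ (T ∩ CS Γ i v.1).card = k ∨ (T ∩ RR Γ i v.1).card = k) := by
  have hsub : {p | (∃ a, p ∈ (sub Γ T a).points) ∧ below (sub Γ T) p = k} ⊆
      ⋃ i ∈ T, {p | p ∈ (Γ i).points ∧ below (sub Γ T) p = k} := by
    rintro p ⟨⟨a, ha⟩, hb⟩
    rw [Set.mem_iUnion₂]
    exact ⟨T.orderEmbOfFin rfl a, T.orderEmbOfFin_mem rfl a, ha, hb⟩
  have h1 := closure_mono hsub hv
  rw [Finset.closure_biUnion, Set.mem_iUnion₂] at h1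
  obtain ⟨i, hi, h2⟩ := h1
  refine ⟨i, hi, ?_, ?_⟩
  · exact (points_closed (Γ i)).closure_subset_iff.mpr (fun p hp => hp.1) h2
  rw [mem_closure_iff_frequently] at h2
  set x := v.1 with hx
  have h3 : ∃ᶠ y in 𝓝 x, y ∈ Set.Icc (Γ i).lo (Γ i).hi ∧
      (T.filter (fun j => Bel Γ i j y)).card = k := by
    apply (continuous_fst.tendsto v).frequently
    refine h2.mono ?_
    rintro p ⟨hp, hb⟩
    refine ⟨hp.1, ?_⟩
    rw [← below_sub T i p.1, ← hb]
    congr 1
    exact Prod.ext rfl hp.2.symm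
  by_contra hcon
  push Not at hcon
  obtain ⟨c1, c2, c3⟩ := hcon
  apply h3
  have l : ∀ᶠ y in 𝓝[<] x, ¬ (y ∈ Set.Icc (Γ i).lo (Γ i).hi ∧
      (T.filter (fun j => Bel Γ i j y)).card = k) := by
    rcases dom_left (Γ i) x with hd | hd
    · have hall : ∀ᶠ y in 𝓝[<] x, ∀ j, (Bel Γ i j y ↔ j ∈ LS Γ i x) := by
        rw [eventually_all]
        intro j
        rcases ev_left hΓ i j x hd with h | h
        · have hj : j ∈ LS Γ i x := by unfold LS; rw [mem_filter]; exact ⟨mem_univ _, h⟩
          filter_upwards [h] with y hy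
          exact ⟨fun _ => hj, fun _ => hy⟩
        · have hj : j ∉ LS Γ i x := by
            intro hj
            unfold LS at hj
            rw [mem_filter] at hj
            obtain ⟨y, hy1, hy2⟩ := (hj.2.and h).exists
            exact hy2 hy1
          filter_upwards [h] with y hy
          exact ⟨fun h' => absurd h' hy, fun h' => absurd h' hj⟩
      filter_upwards [hall] with y hy hy2
      exact c1 ((filter_eq T hy).symm.trans hy2.2)
    · filter_upwards [hd] with y hy hy2
      exact hy hy2.1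
  have r : ∀ᶠ y in 𝓝[>] x, ¬ (y ∈ Set.Icc (Γ i).lo (Γ i).hi ∧
      (T.filter (fun j => Bel Γ i j y)).card = k) := by
    rcases dom_right (Γ i) x with hd | hd
    · have hall : ∀ᶠ y in 𝓝[>] x, ∀ j, (Bel Γ i j y ↔ j ∈ RR Γ i x) := by
        rw [eventually_all]
        intro j
        rcases ev_right hΓ i j x hd with h | h
        · have hj : j ∈ RR Γ i x := by unfold RR; rw [mem_filter]; exact ⟨mem_univ _, h⟩
          filter_upwards [h] with y hy
          exact ⟨fun _ => hj, fun _ => hy⟩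
        · have hj : j ∉ RR Γ i x := by
            intro hj
            unfold RR at hj
            rw [mem_filter] at hj
            obtain ⟨y, hy1, hy2⟩ := (hj.2.and h).exists
            exact hy2 hy1
          filter_upwards [h] with y hy
          exact ⟨fun h' => absurd h' hy, fun h' => absurd h' hj⟩
      filter_upwards [hall] with y hy hy2
      exact c3 ((filter_eq T hy).symm.trans hy2.2)
    · filter_upwards [hd] with y hy hy2
      exact hy hy2.1
  have c : ¬ (x ∈ Set.Icc (Γ i).lo (Γ i).hi ∧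
      (T.filter (fun j => Bel Γ i j x)).card = k) := by
    rintro ⟨_, h⟩
    apply c2
    rw [← filter_eq (Γ := Γ) T (i := i) (y := x) (S := CS Γ i x)]
    · exact h
    · intro j
      unfold CS
      rw [mem_filter]
      exact ⟨fun h => ⟨mem_univ _, h⟩, fun h => h.2⟩
  filter_upwards [eventually_nhdsWithin_iff.mp l, eventually_nhdsWithin_iff.mp r] with y h4 h5
  rcases lt_trichotomy y x with h | h | h
  · exact h4 h
  · rw [h]; exact c
  · exact h5 h

theorem vertices_sub (T : Finset (Fin n)) : vertices (sub Γ T) ⊆ vertices Γ := by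
  rintro p (⟨a, h⟩ | ⟨a, b, hab, h⟩)
  · exact Or.inl ⟨_, h⟩
  · exact Or.inr ⟨_, _, fun h' => hab ((T.orderEmbOfFin rfl).injective h'), h⟩

theorem lo_mem (A : Arc) : (A.lo, A.f A.lo) ∈ A.points := ⟨⟨le_rfl, A.lo_lt_hi.le⟩, rfl⟩

theorem hi_mem (A : Arc) : (A.hi, A.f A.hi) ∈ A.points := ⟨⟨A.lo_lt_hi.le, le_rfl⟩, rfl⟩

/-- the vertices on one arc -/
theorem on_arc (hΓ : IsFamily s Γ) (i : Fin n) :
    (vertices Γ ∩ (Γ i).points).encard ≤ ((2 + n * s : ℕ) : ℕ∞) := by
  classical
  have hsub : vertices Γ ∩ (Γ i).points ⊆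
      ({((Γ i).lo, (Γ i).f (Γ i).lo), ((Γ i).hi, (Γ i).f (Γ i).hi)} : Set (ℝ × ℝ)) ∪
      ⋃ j : {j : Fin n // j ≠ i}, (Γ j.1).points ∩ (Γ i).points := by
    rintro p ⟨hp | ⟨a, b, hab, h1, h2⟩, hpi⟩
    · obtain ⟨l, hl⟩ := hp
      by_cases hli : l = i
      · subst hli
        left
        exact hl
      · right
        rw [Set.mem_iUnion]
        refine ⟨⟨l, hli⟩, ?_, hpi⟩
        rcases hl with rfl | rfl
        · exact lo_mem _
        · exact hi_mem _
    · right
      rw [Set.mem_iUnion]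
      by_cases hai : a = i
      · subst hai
        exact ⟨⟨b, hab.symm⟩, h2, hpi⟩
      · exact ⟨⟨a, hai⟩, h1, hpi⟩
  refine (Set.encard_le_encard hsub).trans ?_
  refine (Set.encard_union_le _ _).trans ?_
  refine (add_le_add (Set.encard_insert_le _ _)
    (Set.encard_iUnion_le_of_fintype _)).trans ?_
  rw [Set.encard_singleton]
  have h2 : ∑ j : {j : Fin n // j ≠ i}, ((Γ j.1).points ∩ (Γ i).points).encard ≤
      ∑ _j : {j : Fin n // j ≠ i}, (s : ℕ∞) := Finset.sum_le_sum (fun j _ => hΓ _ _ j.2)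
  have h3 : (∑ _j : {j : Fin n // j ≠ i}, (s : ℕ∞)) ≤ ((n * s : ℕ) : ℕ∞) := by
    rw [Finset.sum_const, nsmul_eq_mul, ← Nat.cast_mul, Nat.cast_le]
    apply Nat.mul_le_mul_right
    rw [Finset.card_univ]
    refine (Fintype.card_subtype_le _).trans ?_
    simp
  refine (add_le_add le_rfl (h2.trans h3)).trans ?_
  push_cast
  norm_num

open Classical in
theorem comp_le (hΓ : IsFamily s Γ) (T : Finset (Fin n)) (k : ℕ)
    (V : Fin n → Finset (ℝ × ℝ)) (hV : ∀ i, (V i : Set (ℝ × ℝ)) = vertices Γ ∩ (Γ i).points) :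
    (complexity (sub Γ T) k : ℝ) ≤ ∑ i, ∑ v ∈ V i,
      ((if (T ∩ LS Γ i v.1).card = k then (1 : ℝ) else 0) +
        (if (T ∩ CS Γ i v.1).card = k then (1 : ℝ) else 0) +
        (if (T ∩ RR Γ i v.1).card = k then (1 : ℝ) else 0)) := by
  set Z : Finset (ℝ × ℝ) := univ.biUnion (fun i => (V i).filter (fun v =>
    (T ∩ LS Γ i v.1).card = k ∨ (T ∩ CS Γ i v.1).card = k ∨ (T ∩ RR Γ i v.1).card = k)) with hZ
  have h1 : complexity (sub Γ T) k ≤ Z.card := by
    unfold complexity
    have e : Z.card = (Z : Set (ℝ × ℝ)).ncard := (Set.ncard_coe_finset Z).symm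
    rw [e]
    apply Set.ncard_le_ncard _ (Set.toFinite _)
    rintro v ⟨hv1, hv2⟩
    obtain ⟨i, _, hi2, hi3⟩ := level_sub hΓ hv2
    rw [hZ, mem_coe, mem_biUnion]
    refine ⟨i, mem_univ _, ?_⟩
    rw [mem_filter]
    refine ⟨?_, hi3⟩
    rw [← mem_coe, hV]
    exact ⟨vertices_sub T hv1, hi2⟩
  have h2 : Z.card ≤ ∑ i, ((V i).filter (fun v =>
    (T ∩ LS Γ i v.1).card = k ∨ (T ∩ CS Γ i v.1).card = k ∨ (T ∩ RR Γ i v.1).card = k)).card :=
    card_biUnion_le
  have h3 : (complexity (sub Γ T) k : ℝ) ≤ ∑ i, (((V i).filter (fun v =>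
    (T ∩ LS Γ i v.1).card = k ∨ (T ∩ CS Γ i v.1).card = k ∨
      (T ∩ RR Γ i v.1).card = k)).card : ℝ) := by exact_mod_cast h1.trans h2
  refine h3.trans (sum_le_sum (fun i _ => ?_))
  rw [card_filter]
  push_cast
  apply sum_le_sum
  intro v _
  by_cases a1 : (T ∩ LS Γ i v.1).card = k <;> by_cases a2 : (T ∩ CS Γ i v.1).card = k <;>
    by_cases a3 : (T ∩ RR Γ i v.1).card = k <;> simp [a1, a2, a3]

open Classical in
/-- **expected complexity of a level of a random subfamily** -/
theorem expected (hΓ : IsFamily s Γ) {p : ℝ} (h0 : 0 < p) (h1 : p ≤ 1 / 2) (k : ℕ) :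
    ∑ T : Finset (Fin n), wt p T * (complexity (sub Γ T) k : ℝ) ≤
      3 * n * (n * s + 2) / √(2 * p * ((k : ℝ) + 1)) := by
  have hfin : ∀ i, (vertices Γ ∩ (Γ i).points).Finite := fun i =>
    Set.finite_of_encard_le_coe (on_arc hΓ i)
  set V : Fin n → Finset (ℝ × ℝ) := fun i => (hfin i).toFinset with hVd
  have hV : ∀ i, (V i : Set (ℝ × ℝ)) = vertices Γ ∩ (Γ i).points := fun i =>
    (hfin i).coe_toFinset
  have hVc : ∀ i, ((V i).card : ℝ) ≤ n * s + 2 := by
    intro i
    have h := on_arc hΓ i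
    rw [← hV i, Set.encard_coe_eq_coe_finsetCard, Nat.cast_le] at h
    have h' : ((V i).card : ℝ) ≤ ((2 + n * s : ℕ) : ℝ) := by exact_mod_cast h
    push_cast at h'
    linarith
  set B := 1 / √(2 * p * ((k : ℝ) + 1)) with hB
  have hB0 : 0 ≤ B := by positivity
  have hw : ∀ S : Finset (Fin n), ∑ T : Finset (Fin n),
      wt p T * (if (T ∩ S).card = k then (1 : ℝ) else 0) ≤ B := by
    intro S
    refine le_trans (le_of_eq ?_) (prob_le h0 h1 S k)
    apply sum_congr rfl
    intro T _
    split_ifs <;> simp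
  calc ∑ T : Finset (Fin n), wt p T * (complexity (sub Γ T) k : ℝ)
      ≤ ∑ T : Finset (Fin n), wt p T * (∑ i, ∑ v ∈ V i,
        ((if (T ∩ LS Γ i v.1).card = k then (1 : ℝ) else 0) +
        (if (T ∩ CS Γ i v.1).card = k then (1 : ℝ) else 0) +
        (if (T ∩ RR Γ i v.1).card = k then (1 : ℝ) else 0))) :=
        sum_le_sum (fun T _ => mul_le_mul_of_nonneg_left (comp_le hΓ T k V hV)
          (wt_nonneg h0.le (by linarith) T))
    _ = ∑ i, ∑ v ∈ V i, (∑ T : Finset (Fin n),
          wt p T * (if (T ∩ LS Γ i v.1).card = k then (1 : ℝ) else 0) +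
        ∑ T : Finset (Fin n), wt p T * (if (T ∩ CS Γ i v.1).card = k then (1 : ℝ) else 0) +
        ∑ T : Finset (Fin n), wt p T * (if (T ∩ RR Γ i v.1).card = k then (1 : ℝ) else 0)) := by
        simp only [mul_sum]
        rw [sum_comm]
        apply sum_congr rfl
        intro i _
        rw [sum_comm]
        apply sum_congr rfl
        intro v _
        rw [← sum_add_distrib, ← sum_add_distrib]
        apply sum_congr rfl
        intro T _
        ring
    _ ≤ ∑ i : Fin n, ∑ _v ∈ V i, (B + B + B) :=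
        sum_le_sum (fun i _ => sum_le_sum (fun v _ => add_le_add (add_le_add (hw _) (hw _)) (hw _)))
    _ = ∑ i : Fin n, ((V i).card : ℝ) * (3 * B) := by
        apply sum_congr rfl
        intro i _
        rw [sum_const, nsmul_eq_mul]
        ring
    _ ≤ ∑ _i : Fin n, ((n : ℝ) * s + 2) * (3 * B) :=
        sum_le_sum (fun i _ => mul_le_mul_of_nonneg_right (hVc i) (by positivity))
    _ = _ := by
        rw [sum_const, card_univ, Fintype.card_fin, nsmul_eq_mul, hB]
        ring

open Classical in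
theorem deletions {p : ℝ} :
    ∑ T : Finset (Fin n), wt p T * ((n : ℝ) - T.card) = n * p := by
  have h1 : ∀ T : Finset (Fin n), ((n : ℝ) - T.card) =
      ∑ i : Fin n, (if (T ∩ {i}).card = 0 then (1 : ℝ) else 0) := by
    intro T
    have e : ∀ i : Fin n, (if (T ∩ {i}).card = 0 then (1 : ℝ) else 0) =
        1 - (if i ∈ T then (1 : ℝ) else 0) := by
      intro i
      by_cases hi : i ∈ T
      · have : T ∩ {i} = {i} := inter_eq_right.mpr (singleton_subset_iff.mpr hi)
        simp [this, hi]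
      · have : T ∩ {i} = ∅ := by
          ext x; simp only [mem_inter, mem_singleton, notMem_empty, iff_false]
          rintro ⟨hx, rfl⟩; exact hi hx
        simp [this, hi]
    simp only [e]
    rw [sum_sub_distrib]
    simp
  simp only [h1, mul_sum]
  rw [sum_comm]
  have h2 : ∀ i : Fin n, ∑ T : Finset (Fin n), wt p T *
      (if (T ∩ {i}).card = 0 then (1 : ℝ) else 0) = p := by
    intro i
    have h := prob_card (p := p) ({i} : Finset (Fin n)) 0
    rw [card_singleton] at h
    simp only [Nat.choose_zero_right, Nat.cast_one, pow_zero, one_mul, Nat.sub_zero, pow_one] at h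
    refine Eq.trans ?_ h
    apply sum_congr rfl
    intro T _
    split_ifs <;> simp
  simp only [h2]
  rw [sum_const, card_univ, Fintype.card_fin, nsmul_eq_mul]

open Classical in
/-- **few deletions** -/
theorem few (hΓ : IsFamily s Γ) {m : ℕ} (hm : 1 ≤ m) (hmn : m ≤ n) (k : ℕ) :
    ∃ T : Finset (Fin n), n - T.card ≤ m ∧
      (complexity (sub Γ T) k : ℝ) ≤ 6 * n * (n * s + 2) * √((n : ℝ) / (m * ((k : ℝ) + 1))) := by
  have hn0 : (0 : ℝ) < n := by exact_mod_cast (by omega : 0 < n)
  have hm0 : (0 : ℝ) < m := by exact_mod_cast (by omega : 0 < m)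
  have hk0 : (0 : ℝ) < (k : ℝ) + 1 := by positivity
  set p : ℝ := m / (2 * n) with hp
  have hp0 : 0 < p := by positivity
  have hp1 : p ≤ 1 / 2 := by
    rw [hp, div_le_div_iff₀ (by positivity) (by norm_num)]
    have : (m : ℝ) ≤ n := by exact_mod_cast hmn
    linarith
  have h1 := expected hΓ hp0 hp1 k
  have h2 := deletions (n := n) (p := p)
  set B := 3 * (n : ℝ) * (n * s + 2) / √(2 * p * ((k : ℝ) + 1)) with hB
  have hBpos : 0 < B := by positivity
  have e1 : 2 * p * ((k : ℝ) + 1) = (m * ((k : ℝ) + 1)) / n := by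
    rw [hp]; field_simp
  have hB2 : B = 3 * n * (n * s + 2) * √((n : ℝ) / (m * ((k : ℝ) + 1))) := by
    rw [hB, e1, div_eq_mul_inv, ← Real.sqrt_inv, inv_div]
  have h3 : ∑ T : Finset (Fin n), wt p T * ((complexity (sub Γ T) k : ℝ) / (2 * B) +
      ((n : ℝ) - T.card) / m) ≤ ∑ T : Finset (Fin n), wt p T * 1 := by
    have e2 : ∑ T : Finset (Fin n), wt p T * ((complexity (sub Γ T) k : ℝ) / (2 * B) +
        ((n : ℝ) - T.card) / m) =
        (∑ T : Finset (Fin n), wt p T * (complexity (sub Γ T) k : ℝ)) / (2 * B) +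
        (∑ T : Finset (Fin n), wt p T * ((n : ℝ) - T.card)) / m := by
      rw [sum_div, sum_div, ← sum_add_distrib]
      apply sum_congr rfl
      intro T _
      ring
    rw [e2, h2]
    simp only [mul_one]
    rw [wt_sum]
    have e3 : (n : ℝ) * p / m = 1 / 2 := by rw [hp]; field_simp
    rw [e3]
    have e4 : (∑ T : Finset (Fin n), wt p T * (complexity (sub Γ T) k : ℝ)) / (2 * B) ≤ 1 / 2 := by
      rw [div_le_div_iff₀ (by positivity) (by norm_num)]
      linarith
    linarith
  obtain ⟨T, _, hT⟩ := exists_le_of_sum_le (univ_nonempty) h3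
  have hwT : 0 < wt p T := by
    unfold wt
    have : 0 < 1 - p := by linarith
    positivity
  have h4 := le_of_mul_le_mul_left hT hwT
  have hcT : (T.card : ℝ) ≤ n := by
    have := card_le_univ T
    rw [Fintype.card_fin] at this
    exact_mod_cast this
  have h5 : 0 ≤ (complexity (sub Γ T) k : ℝ) / (2 * B) := by positivity
  have h6 : 0 ≤ ((n : ℝ) - T.card) / m := div_nonneg (by linarith) hm0.le
  refine ⟨T, ?_, ?_⟩
  · have h7 : ((n : ℝ) - T.card) / m ≤ 1 := by linarith
    rw [div_le_one hm0] at h7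
    have h8 : (n : ℝ) ≤ ((m + T.card : ℕ) : ℝ) := by push_cast; linarith
    have h9 : n ≤ m + T.card := by exact_mod_cast h8
    omega
  · have h7 : (complexity (sub Γ T) k : ℝ) / (2 * B) ≤ 1 := by linarith
    rw [div_le_one (by positivity)] at h7
    rw [hB2] at h7
    linarith

end Run7.h726.RS
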