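import Pool.Agent.Run7.h726.RS.M1

/-! Random subsets of a finite set: two independent parts. -/

set_option autoImplicit false

namespace Run7.h726.RS

open Finset

variable {α : Type} [DecidableEq α] {p : ℝ}

/-- the probability that exactly the elements of `R` are kept, every element of `S` being deleted
with probability `p` -/
noncomputable def wS (p : ℝ) (S R : Finset α) : ℝ := (1 - p) ^ R.card * p ^ (S.card - R.card)

theorem wS_nonneg (h0 : 0 ≤ p) (h1 : p ≤ 1) (S R : Finset α) : 0 ≤ wS p S R := by
  unfold wS
  have : 0 ≤ 1 - p := by linarith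
  positivity

theorem wS_sum (S : Finset α) : ∑ R ∈ S.powerset, wS p S R = 1 := by
  unfold wS
  rw [sum_pow_mul_eq_add_pow]
  simp

/-- independence of the two parts -/
theorem factor {S A : Finset α} (hA : A ⊆ S) (G : Finset α → Finset α → ℝ) :
    ∑ R ∈ S.powerset, wS p S R * G (R ∩ A) (R \ A) =
      ∑ B ∈ (S \ A).powerset, wS p (S \ A) B * ∑ C ∈ A.powerset, wS p A C * G C B := by
  have h1 : ∑ R ∈ S.powerset, wS p S R * G (R ∩ A) (R \ A) =
      ∑ z ∈ (S \ A).powerset ×ˢ A.powerset, wS p (S \ A) z.1 * (wS p A z.2 * G z.2 z.1) := by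
    refine sum_bij' (fun R _ => (R \ A, R ∩ A)) (fun z _ => z.1 ∪ z.2) ?_ ?_ ?_ ?_ ?_
    · intro R hR
      rw [mem_powerset] at hR
      rw [mem_product, mem_powerset, mem_powerset]
      exact ⟨sdiff_subset_sdiff hR le_rfl, inter_subset_right⟩
    · rintro ⟨B, C⟩ hz
      rw [mem_product, mem_powerset, mem_powerset] at hz
      rw [mem_powerset]
      exact union_subset (hz.1.trans sdiff_subset) (hz.2.trans hA)
    · intro R _
      simp only
      ext x
      simp only [mem_inter, mem_union, mem_sdiff]
      tauto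
    · rintro ⟨B, C⟩ hz
      rw [mem_product, mem_powerset, mem_powerset] at hz
      obtain ⟨hB, hC⟩ := hz
      simp only at hB hC
      have hB' : ∀ x ∈ B, x ∉ A := fun x hx => (mem_sdiff.mp (hB hx)).2
      rw [Prod.mk.injEq]
      constructor
      · ext x
        simp only [mem_sdiff, mem_union]
        constructor
        · rintro ⟨h | h, hx⟩
          · exact h
          · exact absurd (hC h) hx
        · exact fun h => ⟨Or.inl h, hB' x h⟩
      · ext x
        simp only [mem_inter, mem_union]
        constructor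
        · rintro ⟨h | h, hx⟩
          · exact absurd hx (hB' x h)
          · exact h
        · exact fun h => ⟨Or.inr h, hC h⟩
    · intro R hR
      rw [mem_powerset] at hR
      simp only
      unfold wS
      have e1 : R.card = (R \ A).card + (R ∩ A).card := (card_sdiff_add_card_inter R A).symm
      have e2 : S.card = (S \ A).card + A.card := by
        rw [card_sdiff_of_subset hA]
        have := card_le_card hA
        omega
      have e3 : (R \ A).card ≤ (S \ A).card := card_le_card (sdiff_subset_sdiff hR le_rfl)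
      have e4 : (R ∩ A).card ≤ A.card := card_le_card inter_subset_right
      have e5 : S.card - R.card = ((S \ A).card - (R \ A).card) + (A.card - (R ∩ A).card) := by
        omega
      rw [e5, e1, pow_add, pow_add]
      ring
  rw [h1, sum_product]
  apply sum_congr rfl
  intro B _
  rw [mul_sum]

/-- the probability that exactly `k` elements of `A` are kept -/
theorem probA (A : Finset α) (k : ℕ) (h0 : 0 < p) (h1 : p ≤ 1 / 2) :
    ∑ C ∈ A.powerset, wS p A C * (if C.card = k then (1 : ℝ) else 0) ≤
      1 / √(2 * p * ((A.card : ℝ) + 1)) := by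
  have e : ∑ C ∈ A.powerset, wS p A C * (if C.card = k then (1 : ℝ) else 0) =
      (A.card.choose k : ℝ) * ((1 - p) ^ k * p ^ (A.card - k)) := by
    have h2 : ∑ C ∈ A.powerset, wS p A C * (if C.card = k then (1 : ℝ) else 0) =
        ∑ C ∈ powersetCard k A, wS p A C := by
      rw [powersetCard_eq_filter, sum_filter]
      apply sum_congr rfl
      intro C _
      split_ifs <;> simp
    rw [h2]
    have h3 : ∀ C ∈ powersetCard k A, wS p A C = (1 - p) ^ k * p ^ (A.card - k) := by
      intro C hC
      unfold wS
      rw [(mem_powersetCard.mp hC).2]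
    rw [sum_congr rfl h3, sum_const, card_powersetCard, nsmul_eq_mul]
  rw [e]
  rcases Nat.lt_or_ge A.card k with h | h
  · rw [Nat.choose_eq_zero_of_lt h]
    simp only [Nat.cast_zero, zero_mul]
    positivity
  · have h2 := bin_p (q := 2 * p) (by linarith) (by linarith) h
    rw [show 2 * p / 2 = p by ring] at h2
    rw [← mul_assoc]
    exact h2

/-- an event which for every outcome outside `A` allows at most `N` numbers of elements of `A` -/
theorem probE {S A : Finset α} (hA : A ⊆ S) (h0 : 0 < p) (h1 : p ≤ 1 / 2)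
    (E : Finset α → Prop) [DecidablePred E] (N : ℕ) (K : Finset α → Finset ℕ)
    (hK : ∀ B, (K B).card ≤ N) (hE : ∀ R ⊆ S, E R → (R ∩ A).card ∈ K (R \ A)) :
    ∑ R ∈ S.powerset, wS p S R * (if E R then (1 : ℝ) else 0) ≤
      N / √(2 * p * ((A.card : ℝ) + 1)) := by
  set b := 1 / √(2 * p * ((A.card : ℝ) + 1)) with hb
  have hb0 : 0 ≤ b := by positivity
  have hp1 : p ≤ 1 := by linarith
  calc ∑ R ∈ S.powerset, wS p S R * (if E R then (1 : ℝ) else 0)
      ≤ ∑ R ∈ S.powerset, wS p S R *
          (∑ k ∈ K (R \ A), if (R ∩ A).card = k then (1 : ℝ) else 0) := by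
        apply sum_le_sum
        intro R hR
        apply mul_le_mul_of_nonneg_left _ (wS_nonneg h0.le hp1 S R)
        split_ifs with h
        · have h2 := hE R (mem_powerset.mp hR) h
          rw [sum_ite_eq, if_pos h2]
        · exact sum_nonneg (fun k _ => by split_ifs <;> norm_num)
    _ = ∑ B ∈ (S \ A).powerset, wS p (S \ A) B * ∑ C ∈ A.powerset, wS p A C *
          (∑ k ∈ K B, if C.card = k then (1 : ℝ) else 0) :=
        factor hA (fun C B => ∑ k ∈ K B, if C.card = k then (1 : ℝ) else 0)
    _ ≤ ∑ B ∈ (S \ A).powerset, wS p (S \ A) B * (N * b) := by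
        apply sum_le_sum
        intro B _
        apply mul_le_mul_of_nonneg_left _ (wS_nonneg h0.le hp1 _ _)
        simp only [mul_sum]
        rw [sum_comm]
        calc ∑ k ∈ K B, ∑ C ∈ A.powerset, wS p A C * (if C.card = k then (1 : ℝ) else 0)
            ≤ ∑ _k ∈ K B, b := sum_le_sum (fun k _ => probA A k h0 h1)
          _ = (K B).card * b := by rw [sum_const, nsmul_eq_mul]
          _ ≤ N * b := by
              apply mul_le_mul_of_nonneg_right _ hb0
              exact_mod_cast hK B
    _ = N * b := by rw [← sum_mul, wS_sum, one_mul]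
    _ = _ := by rw [hb]; ring

/-- the expected number of deleted elements -/
theorem delS (S : Finset α) :
    ∑ R ∈ S.powerset, wS p S R * ((S.card : ℝ) - R.card) = S.card * p := by
  have e : ∀ R ∈ S.powerset, ((S.card : ℝ) - R.card) =
      ∑ x ∈ S, (if x ∉ R then (1 : ℝ) else 0) := by
    intro R hR
    rw [mem_powerset] at hR
    have h2 : ∑ x ∈ S, (if x ∉ R then (1 : ℝ) else 0) = ((S \ R).card : ℝ) := by
      rw [← sum_filter, sum_const, nsmul_eq_mul, mul_one]
      congr 2
      ext x
      rw [mem_filter, mem_sdiff]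
    rw [h2, card_sdiff_of_subset hR, Nat.cast_sub (card_le_card hR)]
  have h2 : ∑ R ∈ S.powerset, wS p S R * ((S.card : ℝ) - R.card) =
      ∑ x ∈ S, ∑ R ∈ S.powerset, wS p S R * (if x ∉ R then (1 : ℝ) else 0) := by
    rw [sum_comm]
    apply sum_congr rfl
    intro R hR
    rw [e R hR, mul_sum]
  rw [h2]
  have h3 : ∀ x ∈ S, ∑ R ∈ S.powerset, wS p S R * (if x ∉ R then (1 : ℝ) else 0) = p := by
    intro x hx
    have hs : ({x} : Finset α) ⊆ S := singleton_subset_iff.mpr hx
    have h4 := factor (p := p) hs (fun C _ => if x ∉ C then (1 : ℝ) else 0)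
    have h5 : ∀ R : Finset α, (if x ∉ R ∩ {x} then (1 : ℝ) else 0) =
        (if x ∉ R then (1 : ℝ) else 0) := by
      intro R
      simp
    simp only [h5] at h4
    rw [h4]
    have h6 : ∑ C ∈ ({x} : Finset α).powerset, wS p {x} C * (if x ∉ C then (1 : ℝ) else 0) = p := by
      rw [show ({x} : Finset α).powerset = {∅, {x}} by
        ext C; simp [subset_singleton_iff]]
      rw [sum_pair (by simp)]
      simp [wS]
    simp only [h6]
    rw [← sum_mul, wS_sum, one_mul]
  rw [sum_congr rfl h3, sum_const, nsmul_eq_mul]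

end Run7.h726.RS
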