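import Pool.Agent.Run7.h726.RS.N1
import Pool.Agent.KLev.HighDim

/-! Hyperplanes through `d` points of a random subset. -/

set_option autoImplicit false

namespace Run7.h726.RS

open Finset KLev.HighDim

variable {d : ℕ}

open Classical in
/-- the two sides of the hyperplane through `d` points of a set in general position -/
theorem sides (hd : 1 ≤ d) {S : Finset (Fin d → ℝ)} (hS : GeneralPosition S)
    {T : Finset (Fin d → ℝ)} (hT : T ⊆ S) (hTd : T.card = d) :
    ∃ A B : Finset (Fin d → ℝ), A ⊆ S ∧ B ⊆ S ∧ Disjoint A B ∧ B.card ≤ A.card ∧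
      S.card ≤ A.card + B.card + d ∧
      ∀ (w : Fin d → ℝ) (c : ℝ), w ≠ 0 → (∀ p ∈ T, ∑ i, w i * p i = c) →
        (S.filter (fun p => ∑ i, w i * p i < c) = A ∧
          S.filter (fun p => c < ∑ i, w i * p i) = B) ∨
        (S.filter (fun p => ∑ i, w i * p i < c) = B ∧
          S.filter (fun p => c < ∑ i, w i * p i) = A) := by
  -- it is enough to find the two sides without the order of their sizes
  suffices h : ∃ A B : Finset (Fin d → ℝ), A ⊆ S ∧ B ⊆ S ∧ Disjoint A B ∧
      S.card ≤ A.card + B.card + d ∧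
      ∀ (w : Fin d → ℝ) (c : ℝ), w ≠ 0 → (∀ p ∈ T, ∑ i, w i * p i = c) →
        (S.filter (fun p => ∑ i, w i * p i < c) = A ∧
          S.filter (fun p => c < ∑ i, w i * p i) = B) ∨
        (S.filter (fun p => ∑ i, w i * p i < c) = B ∧
          S.filter (fun p => c < ∑ i, w i * p i) = A) by
    obtain ⟨A, B, h1, h2, h3, h4, h5⟩ := h
    rcases le_total B.card A.card with h6 | h6
    · exact ⟨A, B, h1, h2, h3, h6, h4, h5⟩
    · exact ⟨B, A, h2, h1, h3.symm, h6, by omega, fun w c hw hc => (h5 w c hw hc).symm⟩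
  by_cases hex : ∃ (w : Fin d → ℝ) (c : ℝ), w ≠ 0 ∧ ∀ p ∈ T, ∑ i, w i * p i = c
  swap
  · refine ⟨S \ T, ∅, sdiff_subset, empty_subset _, disjoint_empty_right _, ?_, ?_⟩
    · rw [card_sdiff_of_subset hT, card_empty, hTd]; omega
    · intro w c hw hc
      exact absurd ⟨w, c, hw, hc⟩ hex
  obtain ⟨w0, c0, hw0, hc0⟩ := hex
  set A := S.filter (fun p => ∑ i, w0 i * p i < c0) with hA
  set B := S.filter (fun p => c0 < ∑ i, w0 i * p i) with hB
  have hZ : (S.filter (fun p => ∑ i, w0 i * p i = c0)).card ≤ d :=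
    hS w0 c0 hw0 _ (filter_subset _ _) (fun p hp => (mem_filter.mp hp).2)
  have hTZ : T = S.filter (fun p => ∑ i, w0 i * p i = c0) := by
    apply eq_of_subset_of_card_le
    · intro p hp
      exact mem_filter.mpr ⟨hT hp, hc0 p hp⟩
    · rw [hTd]; exact hZ
  have hdisj : Disjoint A B := by
    rw [Finset.disjoint_left]
    intro p h1 h2
    rw [hA, mem_filter] at h1
    rw [hB, mem_filter] at h2
    linarith [h1.2, h2.2]
  have hcard : S.card ≤ A.card + B.card + d := by
    have hsub : S ⊆ (A ∪ B) ∪ T := by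
      intro p hp
      rw [mem_union, mem_union]
      rcases lt_trichotomy (∑ i, w0 i * p i) c0 with h | h | h
      · exact Or.inl (Or.inl (mem_filter.mpr ⟨hp, h⟩))
      · right
        rw [hTZ]
        exact mem_filter.mpr ⟨hp, h⟩
      · exact Or.inl (Or.inr (mem_filter.mpr ⟨hp, h⟩))
    calc S.card ≤ ((A ∪ B) ∪ T).card := card_le_card hsub
      _ ≤ (A ∪ B).card + T.card := card_union_le _ _
      _ ≤ A.card + B.card + d := by rw [hTd]; exact Nat.add_le_add_right (card_union_le _ _) _
  refine ⟨A, B, filter_subset _ _, filter_subset _ _, hdisj, hcard, ?_⟩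
  intro w c hw hc
  by_cases hST : S ⊆ T
  · -- all points on the hyperplane
    have e1 : ∀ (w' : Fin d → ℝ) (c' : ℝ), (∀ p ∈ T, ∑ i, w' i * p i = c') →
        S.filter (fun p => ∑ i, w' i * p i < c') = ∅ ∧
        S.filter (fun p => c' < ∑ i, w' i * p i) = ∅ := by
      intro w' c' h
      constructor
      · rw [filter_eq_empty_iff]
        intro p hp
        rw [h p (hST hp)]
        exact lt_irrefl _
      · rw [filter_eq_empty_iff]
        intro p hp
        rw [h p (hST hp)]
        exact lt_irrefl _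
    left
    rw [hA, hB, (e1 w0 c0 hc0).1, (e1 w0 c0 hc0).2, (e1 w c hc).1, (e1 w c hc).2]
    exact ⟨rfl, rfl⟩
  obtain ⟨x, hxS, hxT⟩ := not_subset.mp hST
  have hx0 : ∑ i, w0 i * x i - c0 ≠ 0 := by
    intro h
    apply hxT
    rw [hTZ]
    exact mem_filter.mpr ⟨hxS, by linarith⟩
  set L := (∑ i, w i * x i - c) / (∑ i, w0 i * x i - c0) with hL
  have hcomb : ∀ p : Fin d → ℝ, ∑ i, (w i - L * w0 i) * p i =
      ∑ i, w i * p i - L * ∑ i, w0 i * p i := by
    intro p
    rw [mul_sum, ← sum_sub_distrib]
    apply sum_congr rfl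
    intro i _
    ring
  have hw' : (fun i => w i - L * w0 i) = 0 := by
    by_contra hne
    have h1 := hS (fun i => w i - L * w0 i) (c - L * c0) hne (insert x T)
      (insert_subset hxS hT) (by
        intro p hp
        rw [mem_insert] at hp
        show ∑ i, (w i - L * w0 i) * p i = c - L * c0
        rw [hcomb]
        rcases hp with rfl | hp
        · have : L * (∑ i, w0 i * p i - c0) = ∑ i, w i * p i - c := by
            rw [hL, div_mul_cancel₀ _ hx0]
          linarith
        · rw [hc p hp, hc0 p hp])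
    rw [card_insert_of_notMem hxT, hTd] at h1
    omega
  have hw2 : ∀ i, w i = L * w0 i := by
    intro i
    have := congrFun hw' i
    simp only [Pi.zero_apply] at this
    linarith
  have hdot : ∀ p : Fin d → ℝ, ∑ i, w i * p i = L * ∑ i, w0 i * p i := by
    intro p
    rw [mul_sum]
    apply sum_congr rfl
    intro i _
    rw [hw2 i]; ring
  obtain ⟨t, ht⟩ : T.Nonempty := card_pos.mp (by omega)
  have hcc : c = L * c0 := by
    rw [← hc t ht, hdot, hc0 t ht]
  have hL0 : L ≠ 0 := by
    intro h
    apply hw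
    funext i
    rw [hw2 i, h, zero_mul]
    rfl
  rcases lt_or_gt_of_ne hL0 with hneg | hpos
  · right
    constructor
    · rw [hB]
      apply filter_congr
      intro p _
      rw [hdot, hcc]
      constructor
      · intro h; by_contra h2; push Not at h2
        exact absurd (mul_le_mul_of_nonpos_left h2 hneg.le) (not_le.mpr h)
      · intro h; exact mul_lt_mul_of_neg_left h hneg
    · rw [hA]
      apply filter_congr
      intro p _
      rw [hdot, hcc]
      constructor
      · intro h; by_contra h2; push Not at h2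
        exact absurd (mul_le_mul_of_nonpos_left h2 hneg.le) (not_le.mpr h)
      · intro h; exact mul_lt_mul_of_neg_left h hneg
  · left
    constructor
    · rw [hA]
      apply filter_congr
      intro p _
      rw [hdot, hcc]
      exact mul_lt_mul_iff_of_pos_left hpos
    · rw [hB]
      apply filter_congr
      intro p _
      rw [hdot, hcc]
      exact mul_lt_mul_iff_of_pos_left hpos

open Classical in
/-- a `k`-hyperplane of a subset has `k` points of the subset on one of the two sides -/
theorem khyp_side {S R T A B : Finset (Fin d → ℝ)} {k : ℕ} (hR : R ⊆ S)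
    (h : ∀ (w : Fin d → ℝ) (c : ℝ), w ≠ 0 → (∀ p ∈ T, ∑ i, w i * p i = c) →
        (S.filter (fun p => ∑ i, w i * p i < c) = A ∧
          S.filter (fun p => c < ∑ i, w i * p i) = B) ∨
        (S.filter (fun p => ∑ i, w i * p i < c) = B ∧
          S.filter (fun p => c < ∑ i, w i * p i) = A))
    (hk : IsKHyperplane R k T) : (R ∩ A).card = k ∨ (R ∩ B).card = k := by
  obtain ⟨_, _, w, c, hw, hc, hk⟩ := hk
  have e : ∀ f : (Fin d → ℝ) → Prop, R.filter f = R ∩ S.filter f := by
    intro f
    ext p
    rw [mem_filter, mem_inter, mem_filter]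
    exact ⟨fun h => ⟨h.1, hR h.1, h.2⟩, fun h => ⟨h.1, h.2.2⟩⟩
  have hk' : (R ∩ S.filter (fun p => ∑ i, w i * p i < c)).card = k ∨
      (R ∩ S.filter (fun p => c < ∑ i, w i * p i)).card = k := by
    rcases hk with h1 | h1
    · left
      rw [← e, ← h1]
    · right
      rw [← e, ← h1]
  rcases h w c hw hc with ⟨h1, h2⟩ | ⟨h1, h2⟩
  · rw [h1, h2] at hk'
    exact hk'
  · rw [h1, h2] at hk'
    exact hk'.symm

/-- the number of halving hyperplanes -/
noncomputable def halving (R : Finset (Fin d → ℝ)) : ℕ :=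
  {T | IsKHyperplane R (R.card / 2) T}.ncard

open Classical in
/-- **expected number of halving hyperplanes of a random subset** -/
theorem exp_halving (hd : 1 ≤ d) {S : Finset (Fin d → ℝ)} (hS : GeneralPosition S) {p : ℝ}
    (h0 : 0 < p) (h1 : p ≤ 1 / 2) (hn : d ≤ S.card) :
    ∑ R ∈ S.powerset, wS p S R * (halving R : ℝ) ≤
      4 * (S.card.choose d : ℝ) / √(p * ((S.card : ℝ) - d + 2)) := by
  choose! A B h using fun (T : Finset (Fin d → ℝ)) (hT : T ⊆ S ∧ T.card = d) =>
    sides hd hS hT.1 hT.2
  have hp1 : p ≤ 1 := by linarith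
  set E : Finset (Fin d → ℝ) → Finset (Fin d → ℝ) → Prop := fun T R =>
    (R ∩ A T).card = R.card / 2 ∨ (R ∩ B T).card = R.card / 2 with hE
  have s1 : ∀ R ∈ S.powerset, (halving R : ℝ) ≤
      ∑ T ∈ powersetCard d S, (if E T R then (1 : ℝ) else 0) := by
    intro R hR
    rw [mem_powerset] at hR
    have h2 : halving R ≤ ((powersetCard d S).filter (fun T => E T R)).card := by
      unfold halving
      have e : ((powersetCard d S).filter (fun T => E T R)).card =
        (((powersetCard d S).filter (fun T => E T R) : Finset (Finset (Fin d → ℝ))) :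
          Set (Finset (Fin d → ℝ))).ncard := (Set.ncard_coe_finset _).symm
      rw [e]
      apply Set.ncard_le_ncard _ (Finset.finite_toSet _)
      intro T hT
      have hT' : IsKHyperplane R (R.card / 2) T := hT
      have hTS : T ⊆ S := hT'.1.trans hR
      rw [mem_coe, mem_filter, mem_powersetCard]
      exact ⟨⟨hTS, hT'.2.1⟩, khyp_side hR (h T ⟨hTS, hT'.2.1⟩).2.2.2.2.2 hT'⟩
    have h3 : (halving R : ℝ) ≤ (((powersetCard d S).filter (fun T => E T R)).card : ℝ) := by
      exact_mod_cast h2
    refine h3.trans (le_of_eq ?_)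
    rw [card_filter]
    push_cast
    rfl
  have s2 : ∀ T ∈ powersetCard d S, ∑ R ∈ S.powerset, wS p S R *
      (if E T R then (1 : ℝ) else 0) ≤ 4 / √(p * ((S.card : ℝ) - d + 2)) := by
    intro T hT
    rw [mem_powersetCard] at hT
    obtain ⟨hA, hB, hdis, hBA, hc, _⟩ := h T hT
    have h4 := probE (S := S) (A := A T) hA h0 h1 (E T) 4
      (fun Z => {Z.card, Z.card - 1, 2 * (Z ∩ B T).card - Z.card,
        2 * (Z ∩ B T).card + 1 - Z.card}) (fun Z => card_le_four) (by
        intro R hR hER
        have e1 : R.card = (R \ A T).card + (R ∩ A T).card :=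
          (card_sdiff_add_card_inter R (A T)).symm
        have e2 : (R \ A T) ∩ B T = R ∩ B T := by
          ext x
          rw [mem_inter, mem_sdiff, mem_inter]
          constructor
          · rintro ⟨⟨a, _⟩, b⟩; exact ⟨a, b⟩
          · rintro ⟨a, b⟩
            exact ⟨⟨a, fun c => (Finset.disjoint_left.mp hdis) c b⟩, b⟩
        rw [e2]
        simp only [mem_insert, mem_singleton]
        rcases hER with h5 | h5
        · omega
        · omega)
    refine h4.trans ?_
    have h5 : (0 : ℝ) < (S.card : ℝ) - d + 2 := by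
      have : (d : ℝ) ≤ S.card := by exact_mod_cast hn
      linarith
    push_cast
    apply div_le_div_of_nonneg_left (by norm_num) (Real.sqrt_pos.mpr (by positivity))
    apply Real.sqrt_le_sqrt
    have h6 : (S.card : ℝ) ≤ 2 * (A T).card + d := by
      have : S.card ≤ 2 * (A T).card + d := by omega
      exact_mod_cast this
    have h7 : (S.card : ℝ) - d + 2 ≤ 2 * (((A T).card : ℝ) + 1) := by linarith
    nlinarith
  calc ∑ R ∈ S.powerset, wS p S R * (halving R : ℝ)
      ≤ ∑ R ∈ S.powerset, wS p S R *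
          (∑ T ∈ powersetCard d S, (if E T R then (1 : ℝ) else 0)) :=
        sum_le_sum (fun R hR => mul_le_mul_of_nonneg_left (s1 R hR) (wS_nonneg h0.le hp1 S R))
    _ = ∑ T ∈ powersetCard d S, ∑ R ∈ S.powerset, wS p S R *
          (if E T R then (1 : ℝ) else 0) := by
        simp only [mul_sum]
        rw [sum_comm]
    _ ≤ ∑ _T ∈ powersetCard d S, 4 / √(p * ((S.card : ℝ) - d + 2)) := sum_le_sum s2
    _ = _ := by
        rw [sum_const, card_powersetCard, nsmul_eq_mul]
        ring

open Classical in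
/-- **few deletions** -/
theorem few_halving (hd : 1 ≤ d) {S : Finset (Fin d → ℝ)} (hS : GeneralPosition S)
    (hn : d ≤ S.card) {m : ℕ} (hm : 1 ≤ m) (hmn : m ≤ S.card) :
    ∃ R ⊆ S, S.card - R.card ≤ m ∧
      (halving R : ℝ) ≤ 8 * (S.card.choose d : ℝ) *
        √(2 * (S.card : ℝ) / (m * ((S.card : ℝ) - d + 2))) := by
  have hd0 : (d : ℝ) ≤ S.card := by exact_mod_cast hn
  have hn0 : (0 : ℝ) < S.card := by exact_mod_cast (by omega : 0 < S.card)
  have hm0 : (0 : ℝ) < m := by exact_mod_cast (by omega : 0 < m)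
  have hk0 : (0 : ℝ) < (S.card : ℝ) - d + 2 := by linarith
  have hch : (0 : ℝ) < (S.card.choose d : ℝ) := by exact_mod_cast Nat.choose_pos hn
  set N : ℝ := (S.card : ℝ) with hN
  set p : ℝ := m / (2 * N) with hp
  have hp0 : 0 < p := by positivity
  have hp1 : p ≤ 1 / 2 := by
    rw [hp, div_le_div_iff₀ (by positivity) (by norm_num)]
    have : (m : ℝ) ≤ N := by rw [hN]; exact_mod_cast hmn
    linarith
  have h1 := exp_halving hd hS hp0 hp1 hn
  have h2 := delS (p := p) S
  set b := 4 * (S.card.choose d : ℝ) / √(p * (N - d + 2)) with hb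
  have hbpos : 0 < b := by
    rw [hb]
    apply div_pos (by positivity) (Real.sqrt_pos.mpr (by positivity))
  have hb2 : b = 4 * (S.card.choose d : ℝ) * √(2 * N / (m * (N - d + 2))) := by
    rw [hb, div_eq_mul_inv, ← Real.sqrt_inv]
    congr 2
    rw [hp]
    field_simp
  have h3 : ∑ R ∈ S.powerset, wS p S R * ((halving R : ℝ) / (2 * b) +
      (N - R.card) / m) ≤ ∑ R ∈ S.powerset, wS p S R * 1 := by
    have e2 : ∑ R ∈ S.powerset, wS p S R * ((halving R : ℝ) / (2 * b) + (N - R.card) / m) =
        (∑ R ∈ S.powerset, wS p S R * (halving R : ℝ)) / (2 * b) +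
        (∑ R ∈ S.powerset, wS p S R * (N - R.card)) / m := by
      rw [sum_div, sum_div, ← sum_add_distrib]
      apply sum_congr rfl
      intro R _
      ring
    rw [e2, h2]
    simp only [mul_one]
    rw [wS_sum]
    have e3 : N * p / m = 1 / 2 := by rw [hp]; field_simp
    rw [e3]
    have e4 : (∑ R ∈ S.powerset, wS p S R * (halving R : ℝ)) / (2 * b) ≤ 1 / 2 := by
      rw [div_le_div_iff₀ (by positivity) (by norm_num)]
      linarith
    linarith
  obtain ⟨R, hR, hRle⟩ := exists_le_of_sum_le ⟨∅, empty_mem_powerset S⟩ h3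
  rw [mem_powerset] at hR
  have hwR : 0 < wS p S R := by
    unfold wS
    have : 0 < 1 - p := by linarith
    positivity
  have h4 := le_of_mul_le_mul_left hRle hwR
  have hcR : (R.card : ℝ) ≤ N := by rw [hN]; exact_mod_cast card_le_card hR
  have h5 : 0 ≤ (halving R : ℝ) / (2 * b) := by positivity
  have h6 : 0 ≤ (N - R.card) / m := div_nonneg (by linarith) hm0.le
  refine ⟨R, hR, ?_, ?_⟩
  · have h7 : (N - R.card) / m ≤ 1 := by linarith
    rw [div_le_one hm0] at h7
    have h8 : (S.card : ℝ) ≤ ((m + R.card : ℕ) : ℝ) := by push_cast; linarith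
    have h9 : S.card ≤ m + R.card := by exact_mod_cast h8
    omega
  · have h7 : (halving R : ℝ) / (2 * b) ≤ 1 := by linarith
    rw [div_le_one (by positivity)] at h7
    rw [hb2] at h7
    linarith

end Run7.h726.RS
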